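import Pool.Agent.V11228.SurjMem

/-!
# Surjectivity of integer polynomial maps `ℝⁿ → ℝᵐ` is complete for `∀∃ℝ`
-/

open Pool.Agent.NPC Pool.Agent.NPC.V11228

/-- Deciding whether a polynomial map `ℝⁿ → ℝᵐ`, given by its integer coefficients written in
binary, is surjective, is complete for `∀∃ℝ` under polynomial-time many-one reductions. -/
theorem Pool.Agent.Results.MP_e38cae_lc.FullSpaceSurjectivity.result :
    AERComplete (lang Surjectivity) :=
  surjectivity_complete
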